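import Mathlib
import Pool.Agent.Helper80.TP.Leaf

/-!
# A faster `dvK`

`Nat.log2` has no kernel acceleration (about 2 ms at 120 bits), so half of the binary logarithm is found
by six comparisons with powers of `4`. Nothing is forced: `dvN k u` is a plain number, and
`dvK k u c = c (dvN k u)` is a theorem.
-/

set_option autoImplicit false

namespace Pool.Agent.Helper19.F5

open Pool.Agent.Helper80.TP (force nw nw0 nw1 dvK)

/-- if `4 ^ (s + k) ≤ x`, then `k` is added to `s` -/
noncomputable def st (k x s : Nat) : Nat :=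
  @Bool.rec (fun _ => Nat) s (Nat.add s k) (Nat.ble (Nat.pow 4 (Nat.add s k)) x)

/-- half of the binary logarithm -/
noncomputable def hl (x : Nat) : Nat :=
  @Bool.rec (fun _ => Nat) (st 1 x (st 2 x (st 4 x (st 8 x (st 16 x (st 32 x 0))))))
    (Nat.shiftRight (Nat.log2 x) 1) (Nat.ble 340282366920938463463374607431768211456 x)

/-- four Newton steps for the square root of `x`, and slightly smaller -/
noncomputable def sqN (x : Nat) : Nat :=
  nw1 (nw x (nw x (nw x (nw x (Nat.shiftLeft 3 (Nat.sub (hl x) 1))))))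

/-- the bound from the right sides, about `sqrt (18464 k u / 169)` -/
noncomputable def dvN (k u : Nat) : Nat := sqN (Nat.div (Nat.mul 18464 (Nat.mul k u)) 169)

/-- the same, given to `c` -/
noncomputable def dvF (k u : Nat) (c : Nat → Bool) : Bool := force (dvN k u) c

theorem st_spec (k x s : ℕ) (h1 : s = 0 ∨ 4 ^ s ≤ x) (h2 : x < 4 ^ (s + 2 * k)) :
    (st k x s = 0 ∨ 4 ^ st k x s ≤ x) ∧ x < 4 ^ (st k x s + k) := by
  have key : ∀ b : Bool, b = Nat.ble (Nat.pow 4 (Nat.add s k)) x →
      ((@Bool.rec (fun _ => Nat) s (Nat.add s k) b = 0 ∨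
        4 ^ (@Bool.rec (fun _ => Nat) s (Nat.add s k) b : ℕ) ≤ x) ∧
        x < 4 ^ ((@Bool.rec (fun _ => Nat) s (Nat.add s k) b : ℕ) + k)) := by
    intro b hb
    cases b with
    | false =>
      refine ⟨h1, ?_⟩
      by_contra hc
      have h3 : Nat.ble (Nat.pow 4 (Nat.add s k)) x = true := Nat.ble_eq_true_of_le (not_lt.mp hc)
      rw [h3] at hb
      exact absurd hb (by decide)
    | true =>
      have h3 : 4 ^ (s + k) ≤ x := Nat.le_of_ble_eq_true hb.symm
      refine ⟨Or.inr h3, ?_⟩
      have h4 : (Nat.add s k) + k = s + 2 * k := by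
        show s + k + k = _
        omega
      show x < 4 ^ (Nat.add s k + k)
      rw [h4]
      exact h2
  exact key _ rfl

theorem hl_eq (x : ℕ) : hl x = Nat.shiftRight (Nat.log2 x) 1 := by
  have key : ∀ b : Bool, b = Nat.ble 340282366920938463463374607431768211456 x →
      @Bool.rec (fun _ => Nat) (st 1 x (st 2 x (st 4 x (st 8 x (st 16 x (st 32 x 0))))))
        (Nat.shiftRight (Nat.log2 x) 1) b = Nat.shiftRight (Nat.log2 x) 1 := by
    intro b hb
    cases b with
    | true => rfl
    | false =>
      have hx : x < 4 ^ (0 + 2 * 32) := by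
        by_contra hc
        have h3 : Nat.ble 340282366920938463463374607431768211456 x = true :=
          Nat.ble_eq_true_of_le (le_trans (by norm_num) (not_lt.mp hc))
        rw [h3] at hb
        exact absurd hb (by decide)
      obtain ⟨a1, a2⟩ := st_spec 32 x 0 (Or.inl rfl) hx
      obtain ⟨b1, b2⟩ := st_spec 16 x _ a1 a2
      obtain ⟨c1, c2⟩ := st_spec 8 x _ b1 b2
      obtain ⟨d1, d2⟩ := st_spec 4 x _ c1 c2
      obtain ⟨e1, e2⟩ := st_spec 2 x _ d1 d2
      obtain ⟨f1, f2⟩ := st_spec 1 x _ e1 e2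
      show st 1 x (st 2 x (st 4 x (st 8 x (st 16 x (st 32 x 0))))) = _
      generalize st 1 x (st 2 x (st 4 x (st 8 x (st 16 x (st 32 x 0))))) = s at f1 f2 ⊢
      show s = Nat.log2 x >>> 1
      rw [Nat.shiftRight_eq_div_pow, pow_one]
      by_cases h0 : x = 0
      · subst h0
        rcases f1 with h | h
        · rw [h]; rfl
        · exact absurd h (by simp)
      · have h4 : 4 ^ s ≤ x := by
          rcases f1 with h | h
          · rw [h, pow_zero]; omega
          · exact h
        have h5 : 2 * s ≤ Nat.log2 x := by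
          rw [Nat.le_log2 h0, pow_mul]
          exact h4
        have h6 : Nat.log2 x < 2 * s + 2 := by
          rw [Nat.log2_lt h0]
          have : (2 : ℕ) ^ (2 * s + 2) = 4 ^ (s + 1) := by
            rw [show 2 * s + 2 = 2 * (s + 1) by ring, pow_mul]; norm_num
          rw [this]; exact f2
        omega
  exact key _ rfl

theorem dvK_eq_dvN (k u : Nat) (c : Nat → Bool) : dvK k u c = c (dvN k u) := by
  show c (nw1 (nw (Nat.div (Nat.mul 18464 (Nat.mul k u)) 169) (nw _ (nw _ (nw _ (nw0 _)))))) = _
  unfold dvN sqN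
  rw [hl_eq]
  rfl

theorem dvF_eq_dvK (k u : Nat) (c : Nat → Bool) : dvF k u c = dvK k u c := by
  rw [dvK_eq_dvN]
  rfl

end Pool.Agent.Helper19.F5
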